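import Pool.Agent.Lib.MP_ed661f_ag.H.PChain

/-!
Chains of contact orders: for the plane the loss in the independence statement is the square of the
slope.
-/

set_option autoImplicit false

open Polynomial

namespace Pool.Agent.Lib.MP_6b2d39_ag.Hom

open Pool.Agent.Lib.MP_ed661f_ag Pool.Agent.Lib.MP_ed661f_ag.H

theorem chain_sq {σ : ℕ} {x : ℝ} (h : RchD 1 σ x) :
    0 < x ∧ (0 : ℝ) < σ ∧ (σ : ℝ) ≤ x ^ 2 ∧ ∀ (κ : ℕ), 1 ≤ κ → ∀ (n m : ℕ)
      (S₀ : Finset (ℕ × ℕ)),
      (∀ b ≤ κ, κ - b ≤ (S₀.filter fun s => s.2 = b).card) →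
      (∀ S, Low σ (x * κ) (κ / x) (x ^ 2) S → Ind n m S σ) →
      ∃ (μ : ℂ) (ξ : ℂ[X]), μ ≠ 0 ∧ Sur S₀ (1 + Polynomial.C μ * X) ξ (I0 n m) := by
  induction h with
  | start a ha =>
    have haR : (2 : ℝ) ≤ a := by exact_mod_cast ha
    have e0 : √((1 : ℕ) : ℝ) = 1 := by simp
    rw [e0, mul_one, mul_one]
    have hx : 0 < (a : ℝ) := by linarith
    refine ⟨hx, hx, by nlinarith, ?_⟩
    intro κ hκ n m S₀ hS₀ H
    have hκR : (1 : ℝ) ≤ κ := by exact_mod_cast hκ
    apply Ind.back_zero (ρ := a)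
    apply H
    have h0 : Low 0 κ κ 1 (G.Psi S₀) := by
      intro D b _ h2
      rw [div_self (by positivity : (κ : ℝ) ≠ 0), sub_zero, one_mul] at h2
      have h4 : D + b + 1 ≤ κ := by
        have : (D : ℝ) + b + 1 ≤ κ := by linarith
        exact_mod_cast this
      rw [G.mem_Psi]
      simp only
      have h3 := hS₀ b (by omega)
      omega
    have h1 := h0.phi (ρ := a) le_rfl (by positivity) (by positivity) zero_le_one (by
      rw [zero_add]
      nlinarith)
    rw [zero_add] at h1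
    convert h1 using 1
    · ring
    · field_simp
      ring
  | @step σ x σ' hr h1 h2 ih =>
    obtain ⟨hx, hσ, hσx, ih⟩ := ih
    have hσ' : (0 : ℝ) < σ' := by
      have : (σ : ℝ) < σ' := by exact_mod_cast h1
      linarith
    have h3 : 0 < (σ' : ℝ) - x ^ 2 := by linarith
    have hx2 : 0 < x ^ 2 := by positivity
    refine ⟨by positivity, hσ', ?_, ?_⟩
    · rw [div_pow, le_div_iff₀ hx2]
      nlinarith
    intro κ hκ n m S₀ hS₀ H
    have hκR : (1 : ℝ) ≤ κ := by exact_mod_cast hκ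
    refine ih κ hκ n m S₀ hS₀ fun S hS => ?_
    obtain ⟨ρ, rfl⟩ := Nat.exists_eq_add_of_le h1.le
    apply Ind.back (ρ := ρ)
    apply H
    have hY : (0 : ℝ) < κ := by positivity
    generalize (κ : ℝ) = Y at hS hY
    push_cast at hσ' h3
    have h4 := hS.phi (ρ := ρ) hσ.le (by positivity) (by positivity) (by positivity) (by
      rw [mul_div_assoc', lt_div_iff₀ hx]
      nlinarith)
    have e1 : x * Y / (Y / x) = x ^ 2 := by
      field_simp
    rw [e1] at h4
    convert h4 using 1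
    · push_cast; rfl
    · push_cast
      field_simp
    · push_cast
      field_simp
    · push_cast
      field_simp
      ring

/-- the jets of order `m` at the points are separated by the polynomials of degree `< κ` as soon as
`x (m + 1 + 1) ≤ κ` -/
theorem sur_sq {n σ : ℕ} {x : ℝ} (h : RchD 1 σ x) (hx : √n ≤ x) (hn : 1 ≤ n)
    {κ m : ℕ} (hm : x * (m + 1) ≤ κ) (S : Finset (ℕ × ℕ))
    (hS : ∀ b ≤ κ, κ - b ≤ (S.filter fun s => s.2 = b).card) :
    ∃ (μ : ℂ) (ξ : ℂ[X]), μ ≠ 0 ∧ Sur S (1 + Polynomial.C μ * X) ξ (I0 n m) := by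
  obtain ⟨hx0, -, -, H⟩ := chain_sq h
  have hκR : (0 : ℝ) < κ := lt_of_lt_of_le (by positivity) hm
  have hκ : 1 ≤ κ := by exact_mod_cast hκR
  refine H κ hκ n m S hS fun S' hS' => ?_
  have hxn : (n : ℝ) ≤ x ^ 2 := by
    have h1 := pow_le_pow_left₀ (Real.sqrt_nonneg _) hx 2
    rwa [Real.sq_sqrt (Nat.cast_nonneg n)] at h1
  exact ind_final hx0 hxn hκR hn (by nlinarith) hS'

end Pool.Agent.Lib.MP_6b2d39_ag.Hom
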