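import Pool.Agent.Lib.MP_6b2d39_ag.Hom.Main

/-!
Homogeneous systems: moderate multiplicities.
-/

set_option autoImplicit false

namespace Pool.Agent.Lib.MP_6b2d39_ag.Hom

/-- the exponentially thin window, with integrality for moderate multiplicities -/
theorem homogeneous_final : ∃ N0 : ℕ, ∀ n d m : ℕ, N0 ≤ n →
    ((d : ℝ) ^ 2 < (1 - Real.exp (-((n : ℝ) ^ (1 / 20 : ℝ)))) * (n * (m : ℝ) ^ 2) ∨
      (n : ℝ) * ((m : ℝ) + 1) ^ 2 ≤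
        (1 - Real.exp (-((n : ℝ) ^ (1 / 20 : ℝ)))) * ((d : ℝ) + 1) ^ 2 ∨
      ((n : ℝ) * ((m : ℝ) + 1) ^ 2 + 1 ≤ Real.exp ((n : ℝ) ^ (1 / 20 : ℝ)) ∧
        (d ^ 2 < n * m ^ 2 ∨ n * (m + 1) ^ 2 < (d + 1) ^ 2))) →
    ∃ Φ : MvPolynomial (Fin n × Fin 2) ℂ, Φ ≠ 0 ∧ ∀ p : Fin n → Fin 2 → ℂ,
      MvPolynomial.eval (fun q => p q.1 q.2) Φ ≠ 0 →
        (Module.finrank ℂ (fatSystem d (fun _ : Fin n => m) p) : ℤ) =
          max (((d + 2).choose 2 : ℤ) - n * ((m + 1).choose 2 : ℤ)) 0 := by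
  obtain ⟨N0, h⟩ := homogeneous
  refine ⟨N0, fun n d m hn hdm => h n d m hn ?_⟩
  rcases hdm with h1 | h1 | ⟨h1, h2⟩
  · exact Or.inl h1
  · exact Or.inr h1
  · obtain ⟨e, he⟩ : ∃ e : ℝ, e = Real.exp (-((n : ℝ) ^ (1 / 20 : ℝ))) := ⟨_, rfl⟩
    rw [← he]
    have he0 : 0 < e := by
      rw [he]
      exact Real.exp_pos _
    have hle : e * ((n : ℝ) * ((m : ℝ) + 1) ^ 2 + 1) ≤ 1 := by
      have h3 := mul_le_mul_of_nonneg_left h1 he0.le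
      rwa [he, ← Real.exp_add, neg_add_cancel, Real.exp_zero, ← he] at h3
    have he1 : e ≤ 1 := by
      have h3 : 0 ≤ (n : ℝ) * ((m : ℝ) + 1) ^ 2 := by positivity
      nlinarith
    rcases h2 with h2 | h2
    · left
      have h3 : (d : ℝ) ^ 2 + 1 ≤ n * (m : ℝ) ^ 2 := by exact_mod_cast h2
      have h4 : (n : ℝ) * (m : ℝ) ^ 2 < (n : ℝ) * ((m : ℝ) + 1) ^ 2 + 1 := by
        have h5 : (0 : ℝ) ≤ n := Nat.cast_nonneg n
        have h6 : (0 : ℝ) ≤ m := Nat.cast_nonneg m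
        nlinarith [mul_nonneg h5 h6]
      nlinarith [mul_lt_mul_of_pos_left h4 he0]
    · right
      have h3 : (n : ℝ) * ((m : ℝ) + 1) ^ 2 + 1 ≤ ((d : ℝ) + 1) ^ 2 := by exact_mod_cast h2
      nlinarith [mul_le_mul_of_nonneg_left h3 (by linarith : 0 ≤ 1 - e)]

end Pool.Agent.Lib.MP_6b2d39_ag.Hom
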