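import Pool.Agent.Lib.MP_6b2d39_ag.LowerBound
import Pool.Agent.Lib.MP_6b2d39_ag.Transfer
import Pool.Agent.Lib.MP_ed661f_ag.H.PDefs

/-!
From one tuple of points whose jets are separated to general points.
-/

set_option autoImplicit false

namespace Pool.Agent.Lib.MP_6b2d39_ag.Hom

open Pool.Agent.Lib.MP_ed661f_ag Pool.Agent.Lib.MP_ed661f_ag.H

/-- the conditions -/
abbrev Cx (n m : ℕ) : Type := Fin n × Transfer.Ix m

/-- the rows of the transposed matrix of conditions -/
def row {R : Type*} [CommRing R] {n m d : ℕ} (x y : Fin n → R) (i : Transfer.Ix d)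
    (c : Cx n m) : R :=
  Transfer.entry (x c.1) (y c.1) (c.2.1.1 : ℕ) (c.2.1.2 : ℕ) i.1.1 i.1.2

theorem map_minor {R R' : Type*} [CommRing R] [CommRing R'] {n m d : ℕ} (φ : R →+* R')
    (x y : Fin n → R) (a : Cx n m → Transfer.Ix d) :
    φ (Matrix.of fun c c' => row x y (a c) c').det =
      (Matrix.of fun c c' => row (fun v => φ (x v)) (fun v => φ (y v)) (a c) c').det := by
  rw [RingHom.map_det]
  congr 1
  ext i i'
  simp [row, Transfer.map_entry]

theorem card_Ix (d : ℕ) : Fintype.card (Transfer.Ix d) = (d + 2).choose 2 := by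
  rw [← card_jetIdx (d + 1)]
  symm
  refine Fintype.card_of_bijective (f := fun z : JetIdx (d + 1) =>
    (⟨(⟨(z.2 : ℕ), ?_⟩, ⟨(z.1 : ℕ) - (z.2 : ℕ), ?_⟩), ?_⟩ : Transfer.Ix d)) ⟨?_, ?_⟩
  · have h1 := z.1.2
    have h2 := z.2.2
    omega
  · have h1 := z.1.2
    omega
  · have h1 := z.1.2
    have h2 := z.2.2
    simp only
    omega
  · rintro ⟨k, j⟩ ⟨k', j'⟩ h
    simp only [Subtype.mk.injEq, Prod.mk.injEq, Fin.mk.injEq] at h
    obtain ⟨h1, h2⟩ := h
    have h3 := j.2
    have h4 := j'.2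
    have h5 : k = k' := Fin.ext (by omega)
    subst h5
    rw [Fin.ext h1]
  · rintro ⟨⟨i, j⟩, h⟩
    simp only at h
    refine ⟨⟨⟨i + j, by omega⟩, ⟨i, by simp⟩⟩, ?_⟩
    refine Subtype.ext (Prod.ext (Fin.ext ?_) (Fin.ext ?_))
    · rfl
    · simp

theorem simplex_ix {d : ℕ} {σ : ℕ × ℕ} (hσ : σ ∈ G.simplex (d + 1)) :
    ∃ i : Transfer.Ix d, (i.1.1 : ℕ) = σ.1 ∧ (i.1.2 : ℕ) = σ.2 := by
  rw [G.mem_simplex] at hσ
  exact ⟨⟨(⟨σ.1, by omega⟩, ⟨σ.2, by omega⟩), by simp only; omega⟩, rfl, rfl⟩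

theorem finrank_of_sep {n m d : ℕ} {q : Fin n → ℂ × ℂ} (h : MonSep (G.simplex (d + 1)) q m) :
    ∃ Φ : MvPolynomial (Fin n × Fin 2) ℂ, Φ ≠ 0 ∧ ∀ p : Fin n → Fin 2 → ℂ,
      MvPolynomial.eval (fun q => p q.1 q.2) Φ ≠ 0 →
        Module.finrank ℂ (fatSystem d (fun _ : Fin n => m + 1) p) + n * (m + 2).choose 2 ≤
          (d + 2).choose 2 := by
  classical
  obtain ⟨a, ha⟩ := Transfer.exists_minor (K := ℂ) (I := Cx n m) (J := Transfer.Ix d)
    (row (fun v => (q v).1) (fun v => (q v).2)) (by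
    intro w hw
    ext c₀
    obtain ⟨c, hc⟩ := h fun l p => if l = c₀.1 ∧ p.1 = c₀.2.1.1 ∧ p.2 = c₀.2.1.2 then 1 else 0
    have h1 : ∀ e : Cx n m, ∑ σ ∈ G.simplex (d + 1), c σ *
        ((σ.1.choose (e.2.1.1 : ℕ) : ℂ) * (q e.1).1 ^ (σ.1 - (e.2.1.1 : ℕ)) *
        ((σ.2.choose (e.2.1.2 : ℕ) : ℂ) * (q e.1).2 ^ (σ.2 - (e.2.1.2 : ℕ)))) =
        if e = c₀ then 1 else 0 := by
      intro e
      have h2 := hc e.1 ((e.2.1.1 : ℕ), (e.2.1.2 : ℕ)) (by
        rw [G.mem_simplex]
        exact Nat.lt_succ_of_le e.2.2)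
      simp only at h2
      rw [h2]
      refine if_congr ?_ rfl rfl
      constructor
      · rintro ⟨h3, h4, h5⟩
        exact Prod.ext h3 (Subtype.ext (Prod.ext (Fin.ext h4) (Fin.ext h5)))
      · rintro rfl
        exact ⟨rfl, rfl, rfl⟩
    have h2 : ∑ e : Cx n m, w e * (if e = c₀ then 1 else 0) = w c₀ := by
      simp
    rw [Pi.zero_apply, ← h2]
    simp only [← h1, Finset.mul_sum]
    rw [Finset.sum_comm]
    refine Finset.sum_eq_zero fun σ hσ => ?_
    obtain ⟨i, hi1, hi2⟩ := simplex_ix hσ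
    have h3 := hw i
    have h4 : ∑ e : Cx n m, w e * (c σ *
        ((σ.1.choose (e.2.1.1 : ℕ) : ℂ) * (q e.1).1 ^ (σ.1 - (e.2.1.1 : ℕ)) *
        ((σ.2.choose (e.2.1.2 : ℕ) : ℂ) * (q e.1).2 ^ (σ.2 - (e.2.1.2 : ℕ))))) =
        c σ * ∑ e, row (fun v => (q v).1) (fun v => (q v).2) i e * w e := by
      rw [Finset.mul_sum]
      refine Finset.sum_congr rfl fun e _ => ?_
      rw [row, Transfer.entry, hi1, hi2]
      ring
    rw [h4, h3, mul_zero])
  -- the universal minor
  let Xu : Fin n → MvPolynomial (Fin n × Fin 2) ℂ := fun v => MvPolynomial.X (v, 0)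
  let Yu : Fin n → MvPolynomial (Fin n × Fin 2) ℂ := fun v => MvPolynomial.X (v, 1)
  refine ⟨(Matrix.of fun c c' => row Xu Yu (a c) c').det, ?_, ?_⟩
  · intro h0
    apply ha
    have h1 := map_minor (MvPolynomial.eval (fun r : Fin n × Fin 2 =>
      if r.2 = 0 then (q r.1).1 else (q r.1).2)) Xu Yu a
    rw [h0, map_zero] at h1
    rw [h1]
    congr 1
    ext i i'
    simp [Xu, Yu]
  · intro p hp
    rw [map_minor] at hp
    simp only [Xu, Yu, MvPolynomial.eval_X] at hp
    let A : Matrix (Cx n m) (Transfer.Ix d) ℂ := Matrix.of fun c i =>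
      row (fun v => p v 0) (fun v => p v 1) i c
    have hsurj : Function.Surjective A.mulVecLin := by
      rw [← LinearMap.range_eq_top]
      by_contra hne
      obtain ⟨φ, hφ, hker⟩ := Submodule.exists_le_ker_of_lt_top _ (lt_top_iff_ne_top.2 hne)
      apply hφ
      have h0 : (fun e => φ (fun j => if e = j then 1 else 0)) = 0 := by
        apply Matrix.eq_zero_of_mulVec_eq_zero hp
        ext c
        have h1 : φ (A.mulVec (Pi.single (a c) 1)) = 0 := hker ⟨_, rfl⟩
        rw [LinearMap.pi_apply_eq_sum_univ φ] at h1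
        simp only [Matrix.mulVec, dotProduct, Matrix.of_apply, Pi.zero_apply]
        refine Eq.trans ?_ h1
        refine Finset.sum_congr rfl fun e _ => ?_
        rw [smul_eq_mul]
        congr 1
        rw [Matrix.mulVec, dotProduct, Finset.sum_eq_single (a c)]
        · simp [A]
        · intro b _ hb
          rw [Pi.single_eq_of_ne hb, mul_zero]
        · simp
      refine LinearMap.ext fun x => ?_
      rw [LinearMap.pi_apply_eq_sum_univ φ x, LinearMap.zero_apply]
      refine Finset.sum_eq_zero fun i _ => ?_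
      rw [show φ (fun j => if i = j then 1 else 0) = 0 from congrFun h0 i, smul_zero]
    have hrank := LinearMap.finrank_range_add_finrank_ker A.mulVecLin
    rw [LinearMap.range_eq_top.2 hsurj, finrank_top, Module.finrank_fintype_fun_eq_card,
      Module.finrank_fintype_fun_eq_card, card_Ix, Fintype.card_prod, Fintype.card_fin,
      card_Ix] at hrank
    have hle : Module.finrank ℂ (fatSystem d (fun _ : Fin n => m + 1) p) ≤
        Module.finrank ℂ (LinearMap.ker A.mulVecLin) := by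
      let B : MvPolynomial (Fin 2) ℂ →ₗ[ℂ] (Transfer.Ix d → ℂ) :=
        LinearMap.pi fun i => MvPolynomial.lcoeff ℂ (Transfer.ex i)
      have hB : ∀ f : MvPolynomial (Fin 2) ℂ, ∀ i, B f i = f.coeff (Transfer.ex i) :=
        fun f i => rfl
      have hmem : ∀ f ∈ fatSystem d (fun _ : Fin n => m + 1) p,
          B f ∈ LinearMap.ker A.mulVecLin := by
        intro f hf
        rw [fatSystem, Submodule.mem_inf, Submodule.mem_iInf] at hf
        obtain ⟨hfd, hfm⟩ := hf
        rw [LinearMap.mem_ker, Matrix.mulVecLin_apply]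
        ext c
        have h3 := Transfer.coeff_Th_eq_sum hfd (p c.1 0) (p c.1 1) c.2.1.1 c.2.1.2
        have h5 := hfm c.1
        have h6 : p c.1 = ![p c.1 0, p c.1 1] := by
          ext i
          fin_cases i <;> rfl
        rw [Submodule.restrictScalars_mem, h6] at h5
        have h7 := Transfer.Th_mem_wt _ _ _ h5 c.2.1.1 c.2.1.2 (Nat.lt_succ_of_le c.2.2)
        rw [h3] at h7
        rw [Pi.zero_apply, ← h7]
        rfl
      refine LinearMap.finrank_le_finrank_of_injective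
        (f := (B.restrict hmem)) ?_
      rw [← LinearMap.ker_eq_bot, LinearMap.ker_eq_bot']
      rintro ⟨f, hf⟩ h0
      apply Subtype.ext
      rw [LinearMap.restrict_apply, Submodule.mk_eq_zero] at h0
      have hfd : f ∈ MvPolynomial.restrictTotalDegree (Fin 2) ℂ d := by
        rw [fatSystem, Submodule.mem_inf] at hf
        exact hf.1
      change f = 0
      rw [Transfer.eq_sum_monomial hfd]
      refine Finset.sum_eq_zero fun i _ => ?_
      rw [← hB f i, h0, Pi.zero_apply, map_zero]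
    omega

end Pool.Agent.Lib.MP_6b2d39_ag.Hom
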