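import Pool.Agent.Lib.MP_6b2d39_ag.Hom.ChainSq
import Pool.Agent.Lib.MP_6b2d39_ag.Hom.Sep
import Pool.Agent.Lib.MP_ed661f_ag.G.Chain
import Pool.Agent.Lib.MP_ed661f_ag.G.Collide
import Pool.Agent.Lib.MP_ed661f_ag.H.PPoints
import Pool.Agent.Lib.MP_ed661f_ag.X.ChainX

/-!
Homogeneous systems outside a thin window.
-/

set_option autoImplicit false

namespace Pool.Agent.Lib.MP_6b2d39_ag.Hom

open Pool.Agent.Lib.MP_ed661f_ag Pool.Agent.Lib.MP_ed661f_ag.H

theorem reach_of_rchD {σ : ℕ} {x : ℝ} (h : RchD 1 σ x) :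
    ∃ a τ k : ℕ, 2 ≤ a ∧ a ≤ σ ∧ τ ≤ σ ∧ G.Reach a τ x k := by
  induction h with
  | start a ha =>
    refine ⟨a, 0, 0, ha, by omega, by omega, ?_⟩
    have e0 : √((1 : ℕ) : ℝ) = 1 := by simp
    rw [e0, mul_one]
    exact G.Reach.start
  | @step σ x σ' hr h1 h2 ih =>
    obtain ⟨a, τ, k, ha, haσ, hτ, hR⟩ := ih
    exact ⟨a, σ', k + 1, ha, by omega, le_rfl, G.Reach.step σ' hR (by omega) h2⟩

theorem eventually_small : ∃ N1 : ℕ, ∀ n : ℕ, N1 ≤ n →
    ((n : ℝ) + 1) * Real.exp (-((n : ℝ) ^ (1 / 20 : ℝ))) < 1 := by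
  have h1 : Filter.Tendsto (fun y : ℝ => y ^ 21 * Real.exp (-y)) Filter.atTop (nhds 0) :=
    Real.tendsto_pow_mul_exp_neg_atTop_nhds_zero 21
  have h2 : Filter.Tendsto (fun n : ℕ => (n : ℝ) ^ (1 / 20 : ℝ)) Filter.atTop Filter.atTop :=
    (tendsto_rpow_atTop (by norm_num)).comp tendsto_natCast_atTop_atTop
  have h3 := (h1.comp h2).eventually (gt_mem_nhds (show (0 : ℝ) < 1 by norm_num))
  have h4 := h2.eventually_ge_atTop 2
  obtain ⟨N, hN⟩ := Filter.eventually_atTop.1 (h3.and h4)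
  refine ⟨N, fun n hn => ?_⟩
  obtain ⟨h5, h6⟩ := hN n hn
  simp only [Function.comp] at h5
  obtain ⟨y, hy⟩ : ∃ y : ℝ, y = (n : ℝ) ^ (1 / 20 : ℝ) := ⟨_, rfl⟩
  rw [← hy] at h5 h6 ⊢
  have h7 : y ^ 20 = n := by
    rw [hy, ← Real.rpow_natCast, ← Real.rpow_mul (Nat.cast_nonneg n)]
    norm_num
  refine lt_of_le_of_lt ?_ h5
  apply mul_le_mul_of_nonneg_right _ (Real.exp_pos _).le
  rw [← h7]
  have h8 : (1 : ℝ) ≤ y ^ 20 := one_le_pow₀ (by linarith)
  nlinarith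

theorem row_card (D : ℕ) : ∀ b ≤ D, D - b ≤ ((G.simplex D).filter fun s => s.2 = b).card := by
  intro b _
  have h := Finset.card_le_card_of_injOn (s := Finset.range (D - b))
    (t := (G.simplex D).filter fun s => s.2 = b) (fun i => (i, b)) (by
      intro i hi
      rw [Finset.mem_coe, Finset.mem_range] at hi
      rw [Finset.mem_coe, Finset.mem_filter, G.mem_simplex]
      exact ⟨by simp only; omega, rfl⟩) (by
      intro i _ j _ hij
      exact (Prod.mk.inj hij).1)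
  rwa [Finset.card_range] at h

/-- the expected dimension -/
theorem of_finrank {n d m : ℕ} (h : ∃ Φ : MvPolynomial (Fin n × Fin 2) ℂ, Φ ≠ 0 ∧
    ∀ p : Fin n → Fin 2 → ℂ, MvPolynomial.eval (fun q => p q.1 q.2) Φ ≠ 0 →
      Module.finrank ℂ (fatSystem d (fun _ : Fin n => m) p) + n * (m + 1).choose 2 ≤
        (d + 2).choose 2) :
    ∃ Φ : MvPolynomial (Fin n × Fin 2) ℂ, Φ ≠ 0 ∧ ∀ p : Fin n → Fin 2 → ℂ,
      MvPolynomial.eval (fun q => p q.1 q.2) Φ ≠ 0 →
        (Module.finrank ℂ (fatSystem d (fun _ : Fin n => m) p) : ℤ) =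
          max (((d + 2).choose 2 : ℤ) - n * ((m + 1).choose 2 : ℤ)) 0 := by
  obtain ⟨Φ, hΦ, H⟩ := h
  refine ⟨Φ, hΦ, fun p hp => ?_⟩
  have h1 := H p hp
  have h2 := lower_bound (d := d) (fun _ : Fin n => m) p
  simp only [Finset.sum_const, Finset.card_univ, Fintype.card_fin, smul_eq_mul] at h2
  zify at h1 h2
  have h0 : (0 : ℤ) ≤ (Module.finrank ℂ (fatSystem d (fun _ : Fin n => m) p) : ℤ) :=
    Int.natCast_nonneg _
  rw [max_eq_left (by linarith)]
  linarith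

theorem homogeneous : ∃ N0 : ℕ, ∀ n d m : ℕ, N0 ≤ n →
    ((d : ℝ) ^ 2 < (1 - Real.exp (-((n : ℝ) ^ (1 / 20 : ℝ)))) * (n * (m : ℝ) ^ 2) ∨
      (n : ℝ) * ((m : ℝ) + 1) ^ 2 ≤
        (1 - Real.exp (-((n : ℝ) ^ (1 / 20 : ℝ)))) * ((d : ℝ) + 1) ^ 2) →
    ∃ Φ : MvPolynomial (Fin n × Fin 2) ℂ, Φ ≠ 0 ∧ ∀ p : Fin n → Fin 2 → ℂ,
      MvPolynomial.eval (fun q => p q.1 q.2) Φ ≠ 0 →
        (Module.finrank ℂ (fatSystem d (fun _ : Fin n => m) p) : ℤ) =
          max (((d + 2).choose 2 : ℤ) - n * ((m + 1).choose 2 : ℤ)) 0 := by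
  obtain ⟨N1, hN1⟩ := eventually_small
  obtain ⟨N0, hN0, hch⟩ := X.chainX
  refine ⟨max N0 (max N1 100), ?_⟩
  intro n d m hn hdm
  have hn0 : N0 ≤ n := le_trans (le_max_left _ _) hn
  have hn1 : N1 ≤ n := le_trans (le_trans (le_max_left _ _) (le_max_right _ _)) hn
  have hn2 : 100 ≤ n := le_trans (le_trans (le_max_right _ _) (le_max_right _ _)) hn
  have hnR : (100 : ℝ) ≤ n := by exact_mod_cast hn2
  have hsm := hN1 n hn1
  obtain ⟨σ, x, hr, hx, hx2⟩ := hch n 1 le_rfl (by omega)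
  obtain ⟨e, he⟩ : ∃ e : ℝ, e = Real.exp (-((n : ℝ) ^ (1 / 20 : ℝ))) := ⟨_, rfl⟩
  rw [← he] at hdm hsm hx2
  have he0 : 0 < e := by
    rw [he]
    exact Real.exp_pos _
  have he1 : 0 < 1 - e := by nlinarith
  obtain ⟨hx0, -, hσx, -⟩ := chain_sq hr
  have hxn : (n : ℝ) ≤ x ^ 2 := by
    have h1 := pow_le_pow_left₀ (Real.sqrt_nonneg _) hx 2
    rwa [Real.sq_sqrt (Nat.cast_nonneg n)] at h1
  rcases hdm with hdm | hdm
  · -- no curves
    have hm : 1 ≤ m := by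
      by_contra hm
      have hm0 : m = 0 := by omega
      rw [hm0] at hdm
      have : (0 : ℝ) ≤ (d : ℝ) ^ 2 := by positivity
      push_cast at hdm
      nlinarith
    have hmR : (1 : ℝ) ≤ m := by exact_mod_cast hm
    obtain ⟨a, τ, k, ha, haσ, hτ, hR⟩ := reach_of_rchD hr
    have hσn : σ ≤ n := by
      have h1 : (σ : ℝ) < n + 1 := by nlinarith
      have h2 : σ < n + 1 := by exact_mod_cast h1
      omega
    have hlt : (d : ℝ) < min x (n / x) * m := by
      have h1 : (n : ℝ) / x ≤ x := by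
        rw [div_le_iff₀ hx0]
        nlinarith
      rw [min_eq_right h1]
      have h2 : (d : ℝ) ^ 2 < ((n : ℝ) / x * m) ^ 2 := by
        refine lt_of_lt_of_le hdm ?_
        rw [mul_pow, div_pow, div_mul_eq_mul_div, le_div_iff₀ (by positivity)]
        have h3 : x ^ 2 * (1 - e) ≤ n := hx2.le
        have h4 : 0 ≤ (n : ℝ) * (m : ℝ) ^ 2 := by positivity
        nlinarith [mul_le_mul_of_nonneg_left h3 h4]
      exact lt_of_pow_lt_pow_left₀ 2 (by positivity) h2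
    obtain ⟨ζ, hζ⟩ := G.good_of_reach hR (by omega) (haσ.trans hσn) (hτ.trans hσn) hlt
    obtain ⟨Φ, hΦ, H⟩ := G.gen_of_good hζ
    refine ⟨Φ, hΦ, fun p hp => ?_⟩
    rw [H p hp, finrank_bot, Nat.cast_zero]
    symm
    apply max_eq_right
    have h1 : (d : ℝ) ^ 2 < n * (m : ℝ) ^ 2 := by
      have h2 : 0 < (n : ℝ) * (m : ℝ) ^ 2 := by positivity
      nlinarith
    have h2 : d ^ 2 < n * m ^ 2 := by exact_mod_cast h1
    have h3 : (d + 2).choose 2 ≤ n * (m + 1).choose 2 := by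
      have e1 : 2 * (d + 2).choose 2 = (d + 2) * (d + 1) := by
        rw [Nat.choose_two_right, Nat.mul_div_cancel' ]
        · rfl
        · exact (Nat.even_mul_pred_self (d + 2)).two_dvd
      have e2 : 2 * (m + 1).choose 2 = (m + 1) * m := by
        rw [Nat.choose_two_right, Nat.mul_div_cancel' ]
        · rfl
        · exact (Nat.even_mul_pred_self (m + 1)).two_dvd
      have h4 : 3 * d + 1 ≤ n * m := by
        by_contra hcon
        push Not at hcon
        have h5 : n * m ≤ 3 * d := by omega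
        have h6 : (n * m) ^ 2 ≤ (3 * d) ^ 2 := Nat.pow_le_pow_left h5 2
        have h7 : (n * m) ^ 2 = n * (n * m ^ 2) := by ring
        have h8 : (3 * d) ^ 2 = 9 * d ^ 2 := by ring
        have h9 : 100 * (n * m ^ 2) ≤ n * (n * m ^ 2) := Nat.mul_le_mul_right _ hn2
        omega
      have h5 : (d + 2) * (d + 1) = d ^ 2 + 3 * d + 2 := by ring
      have h6 : n * ((m + 1) * m) = n * m ^ 2 + n * m := by ring
      have h7 : 2 * (n * (m + 1).choose 2) = n * (2 * (m + 1).choose 2) := by ring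
      rw [e2, h6] at h7
      rw [h5] at e1
      omega
    zify at h3
    linarith
  · -- independent conditions
    apply of_finrank
    rcases Nat.eq_zero_or_pos m with hm | hm
    · subst hm
      refine ⟨1, one_ne_zero, fun p _ => ?_⟩
      have h1 := Submodule.finrank_mono
        (inf_le_left : fatSystem d (fun _ : Fin n => 0) p ≤
          MvPolynomial.restrictTotalDegree (Fin 2) ℂ d)
      rw [finrank_restrictTotalDegree] at h1
      have h2 : (0 + 1).choose 2 = 0 := rfl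
      rw [h2, mul_zero, add_zero]
      exact h1
    · obtain ⟨m', rfl⟩ := Nat.exists_eq_add_of_le' hm
      have hle : x * (((m' + 1 : ℕ) : ℝ) + 1) ≤ ((d + 1 : ℕ) : ℝ) := by
        have h1 : (x * (((m' + 1 : ℕ) : ℝ) + 1)) ^ 2 ≤ (((d + 1 : ℕ) : ℝ)) ^ 2 := by
          have h2 : 0 ≤ (((m' + 1 : ℕ) : ℝ) + 1) ^ 2 := by positivity
          have h3 := mul_le_mul_of_nonneg_right hx2.le h2
          have h4 : (1 - e) * (x * (((m' + 1 : ℕ) : ℝ) + 1)) ^ 2 ≤
              (1 - e) * (((d + 1 : ℕ) : ℝ)) ^ 2 := by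
            push_cast at hdm h3 ⊢
            linarith
          exact le_of_mul_le_mul_left h4 he1
        exact le_of_sq_le_sq h1 (by positivity)
      obtain ⟨μ, ξ, hμ, hS⟩ := sur_sq hr hx (by omega) hle (G.simplex (d + 1)) (row_card (d + 1))
      obtain ⟨q, -, hq⟩ := monSep_of_sur hμ hS
      exact finrank_of_sep hq

end Pool.Agent.Lib.MP_6b2d39_ag.Hom
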